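import Pool.Agent.Lib.MP_7470b6_lc.Bip.RC

/-!
# Contention resolution for matchings on bipartite graphs: the optimal constant

On bipartite graphs there is a `γ`-balanced scheme for every fractional matching, where `γ` is the
Karp-Sipser constant.
-/

namespace Pool.Agent.Results.MP_7470b6_lc.BipartiteGamma

open Pool.Agent.Lib.MP_7470b6_lc.Crs

/-- Bipartite graphs: balancedness `γ = 2 - 2 Ω - Ω²`, `Ω e ^ Ω = 1`, for every fractional
matching. -/
theorem result (V : Type) [Fintype V] (G : SimpleGraph V) (hG : G.Colorable 2)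
    (x : Sym2 V → ℝ) (hx : x ∈ matchingPolytope G) (Om : ℝ) (h0 : 0 < Om)
    (h : Om * Real.exp Om = 1) :
    ∃ μ, IsScheme G μ ∧ Balanced G x μ (2 - 2 * Om - Om ^ 2) := by
  obtain ⟨c⟩ := hG
  refine Pool.Agent.Lib.MP_7470b6_lc.Bip.main_bip G (fun v => decide (c v = 0)) ?_ x hx h0 h
  intro u v huv h
  have h1 : c u ≠ c v := c.valid huv
  apply h1
  have h2 : (c u = 0) ↔ (c v = 0) := by simpa using h
  generalize c u = a at h2 ⊢
  generalize c v = b at h2 ⊢
  revert h2
  fin_cases a <;> fin_cases b <;> simp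

end Pool.Agent.Results.MP_7470b6_lc.BipartiteGamma
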