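import Pool.Agent.Lib.MP_7470b6_lc.For.ForMain

/-!
# Contention resolution for matchings on forests

On forests there is a `0.585`-balanced scheme, for all fractional matchings.
-/

namespace Pool.Agent.Results.MP_7470b6_lc.Forests

open Pool.Agent.Lib.MP_7470b6_lc.Crs

/-- Forests: balancedness `0.585`, larger than the constant `0.5441...` of the problem. -/
theorem result (V : Type) [Fintype V] (G : SimpleGraph V) (hG : G.IsAcyclic)
    (x : Sym2 V → ℝ) (hx : x ∈ matchingPolytope G) :
    ∃ μ, IsScheme G μ ∧ Balanced G x μ 0.585 :=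
  Pool.Agent.Lib.MP_7470b6_lc.For.main_forest G hG x hx

end Pool.Agent.Results.MP_7470b6_lc.Forests
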