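import Pool.Agent.Lib.MP_7470b6_lc.Gen.GenMain

/-!
# Contention resolution for matchings on all graphs

On every graph there is a `0.49`-balanced scheme, for all fractional matchings.
-/

namespace Pool.Agent.Results.MP_7470b6_lc.General

open Pool.Agent.Lib.MP_7470b6_lc.Crs

/-- All graphs: balancedness `0.49`. -/
theorem result (V : Type) [Fintype V] (G : SimpleGraph V)
    (x : Sym2 V → ℝ) (hx : x ∈ matchingPolytope G) :
    ∃ μ, IsScheme G μ ∧ Balanced G x μ 0.49 := by
  classical
  exact Pool.Agent.Lib.MP_7470b6_lc.Gen.main_general G x hx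

end Pool.Agent.Results.MP_7470b6_lc.General
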